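import Mathlib

set_option autoImplicit false

/-! The Levy exponent of the jump function `a / r ^ 19`. -/

open MeasureTheory Filter Topology Complex

namespace Pool.Agent.H394Z.Stable

lemma norm_exp_div_sub_one_le (ξ r : ℝ) :
    ‖cexp (((ξ / r ^ 19 : ℝ) : ℂ) * I) - 1‖ ≤ (4 + 2 * |ξ|) * (1 + r ^ 2)⁻¹ := by
  have hpos : 0 < 1 + r ^ 2 := by positivity
  rw [← div_eq_mul_inv, le_div_iff₀ hpos]
  rcases le_total (r ^ 2) 1 with h | h
  · have h1 : ‖cexp (((ξ / r ^ 19 : ℝ) : ℂ) * I) - 1‖ ≤ 2 := by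
      refine (norm_sub_le _ _).trans ?_
      rw [Complex.norm_exp_ofReal_mul_I, norm_one]
      norm_num
    have h2 := abs_nonneg ξ
    have h3 := norm_nonneg (cexp (((ξ / r ^ 19 : ℝ) : ℂ) * I) - 1)
    nlinarith
  · have h1 : ‖cexp (((ξ / r ^ 19 : ℝ) : ℂ) * I) - 1‖ ≤ |ξ / r ^ 19| := by
      rw [mul_comm]
      exact Real.norm_exp_I_mul_ofReal_sub_one_le
    have hr : 1 ≤ |r| := by
      rw [← sq_abs] at h
      by_contra hc
      push Not at hc
      have := abs_nonneg r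
      nlinarith
    have h2 : r ^ 2 ≤ |r| ^ 19 := by
      rw [← sq_abs]
      exact pow_le_pow_right₀ hr (by norm_num)
    have h3 : |ξ / r ^ 19| ≤ |ξ| / r ^ 2 := by
      rw [abs_div, abs_pow]
      gcongr
    have h4 : |ξ| / r ^ 2 * (1 + r ^ 2) ≤ 2 * |ξ| := by
      rw [div_mul_eq_mul_div, div_le_iff₀ (by linarith)]
      have := abs_nonneg ξ
      nlinarith
    calc _ ≤ |ξ| / r ^ 2 * (1 + r ^ 2) := by gcongr; exact h1.trans h3
      _ ≤ 2 * |ξ| := h4
      _ ≤ _ := by linarith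

lemma measurable_exp_div (ξ : ℝ) :
    Measurable fun r : ℝ => cexp (((ξ / r ^ 19 : ℝ) : ℂ) * I) - 1 :=
  (Complex.measurable_exp.comp ((Complex.measurable_ofReal.comp
    (by fun_prop : Measurable fun r : ℝ => ξ / r ^ 19)).mul_const I)).sub_const 1

lemma integrable_exp_div (ξ : ℝ) :
    Integrable fun r : ℝ => cexp (((ξ / r ^ 19 : ℝ) : ℂ) * I) - 1 :=
  (integrable_inv_one_add_sq.const_mul (4 + 2 * |ξ|)).mono'
    (measurable_exp_div ξ).aestronglyMeasurable
    (Eventually.of_forall fun r => norm_exp_div_sub_one_le ξ r)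

/-- The exponent of the jump function `1 / r ^ 19`. -/
noncomputable def psi (ξ : ℝ) : ℂ := ∫ r : ℝ, (cexp (((ξ / r ^ 19 : ℝ) : ℂ) * I) - 1)

lemma psi_pow (b : ℝ) : psi (b ^ 19) = |b| • psi 1 := by
  unfold psi
  rw [← Measure.integral_comp_div (fun r : ℝ => cexp (((1 / r ^ 19 : ℝ) : ℂ) * I) - 1) b]
  refine integral_congr_ae (Eventually.of_forall fun r => ?_)
  simp only [div_pow, one_div_div]

/-- The normalising constant. -/
noncomputable def kap : ℝ := ∫ r : ℝ, (1 - Real.cos (1 / r ^ 19))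

lemma re_exp_div (r : ℝ) :
    (cexp (((1 / r ^ 19 : ℝ) : ℂ) * I) - 1).re = -(1 - Real.cos (1 / r ^ 19)) := by
  rw [Complex.sub_re, Complex.exp_ofReal_mul_I_re]
  simp

lemma kap_pos : 0 < kap := by
  have hint : Integrable fun r : ℝ => 1 - Real.cos (1 / r ^ 19) := by
    have := (integrable_exp_div 1).re.neg
    refine this.congr (Eventually.of_forall fun r => ?_)
    simp only [Pi.neg_apply, RCLike.re_to_complex]
    rw [re_exp_div, neg_neg]
  unfold kap
  rw [integral_pos_iff_support_of_nonneg (fun r => by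
    simp only [Pi.zero_apply, sub_nonneg]; exact Real.cos_le_one _) hint]
  refine lt_of_lt_of_le (by simp : (0 : ENNReal) < volume (Set.Ioo (1 : ℝ) 2)) (measure_mono ?_)
  intro r hr
  have h1 : 1 < r ^ 19 := one_lt_pow₀ hr.1 (by norm_num)
  have h2 : 0 < 1 / r ^ 19 := by positivity
  have h3 : 1 / r ^ 19 < 1 := by rw [div_lt_one (by linarith)]; exact h1
  have h4 : Real.cos (1 / r ^ 19) < 1 := by
    have := Real.cos_lt_cos_of_nonneg_of_le_pi le_rfl
      (by linarith [Real.pi_gt_three] : 1 / r ^ 19 ≤ Real.pi) h2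
    rwa [Real.cos_zero] at this
  simp only [Function.mem_support]
  linarith

lemma psi_one : psi 1 = -(kap : ℂ) := by
  have h1 : psi (-1) = psi 1 := by
    have := psi_pow (-1)
    norm_num at this
    exact this
  have h2 : psi 1 + psi (-1) = -(2 * kap : ℂ) := by
    unfold psi kap
    rw [← integral_add (integrable_exp_div 1) (integrable_exp_div (-1)), ← integral_complex_ofReal,
      ← integral_const_mul, ← integral_neg]
    refine integral_congr_ae (Eventually.of_forall fun r => ?_)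
    simp only
    have h := Complex.two_cos (((1 / r ^ 19 : ℝ) : ℂ))
    rw [show ((-1 / r ^ 19 : ℝ) : ℂ) = -((1 / r ^ 19 : ℝ) : ℂ) by push_cast; ring]
    rw [Complex.ofReal_sub, Complex.ofReal_cos]
    simp only [Complex.ofReal_one]
    linear_combination -h
  rw [h1] at h2
  linear_combination h2 / 2

lemma psi_eq (ξ : ℝ) : psi ξ = -((|ξ| ^ (((19 : ℕ) : ℝ)⁻¹) * kap : ℝ) : ℂ) := by
  obtain ⟨b, hb, hb'⟩ : ∃ b : ℝ, b ^ 19 = ξ ∧ |b| = |ξ| ^ (((19 : ℕ) : ℝ)⁻¹) := by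
    have h0 : (|ξ| ^ (((19 : ℕ) : ℝ)⁻¹)) ^ 19 = |ξ| :=
      Real.rpow_inv_natCast_pow (abs_nonneg ξ) (by norm_num)
    have h1 : 0 ≤ |ξ| ^ (((19 : ℕ) : ℝ)⁻¹) := by positivity
    rcases le_total 0 ξ with h | h
    · exact ⟨_, by rw [h0, abs_of_nonneg h], abs_of_nonneg h1⟩
    · refine ⟨-(|ξ| ^ (((19 : ℕ) : ℝ)⁻¹)), ?_, by rw [abs_neg, abs_of_nonneg h1]⟩
      rw [Odd.neg_pow (by decide), h0, abs_of_nonpos h, neg_neg]
  rw [← hb', ← hb, psi_pow, psi_one]
  simp

/-- The size of the jumps. -/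
noncomputable def amp : ℝ := (kap⁻¹) ^ 19

lemma amp_pos : 0 < amp := by
  have := kap_pos
  unfold amp
  positivity

lemma psi_mul_amp (ξ : ℝ) : psi (ξ * amp) = -((|ξ| ^ (((19 : ℕ) : ℝ)⁻¹) : ℝ) : ℂ) := by
  have hk := kap_pos
  rw [psi_eq, abs_mul, Real.mul_rpow (abs_nonneg _) (abs_nonneg _), abs_of_pos amp_pos, amp,
    Real.pow_rpow_inv_natCast (by positivity) (by norm_num), mul_assoc, inv_mul_cancel₀ hk.ne',
    mul_one]

end Pool.Agent.H394Z.Stable
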