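import Mathlib

set_option autoImplicit false

/-! A measure with Fourier decay cannot be carried by few short horizontal strips. -/

open MeasureTheory Filter Topology Complex

namespace Pool.Agent.H394Z.Stable

lemma fejer_upper (μ : Measure (ℝ × ℝ)) [IsProbabilityMeasure μ] (D θ c : ℝ) (hD : 0 ≤ D) (L : ℕ)
    (hdec : ∀ k : ℤ, k ≠ 0 → ‖∫ p, cexp ((((k : ℝ) * θ * p.2 : ℝ) : ℂ) * I) ∂μ‖ ≤ D) :
    ∫ p, ‖∑ l ∈ Finset.range L, cexp ((((l : ℝ) * θ * (p.2 - c) : ℝ) : ℂ) * I)‖ ^ 2 ∂μ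
      ≤ L + (L : ℝ) ^ 2 * D := by
  have hint : ∀ a : ℝ, Integrable (fun p : ℝ × ℝ => cexp (((a * p.2 : ℝ) : ℂ) * I)) μ := by
    intro a
    refine Integrable.of_bound ?_ 1
      (Eventually.of_forall fun z => by rw [Complex.norm_exp_ofReal_mul_I])
    exact (by fun_prop : Continuous fun p : ℝ × ℝ =>
      cexp (((a * p.2 : ℝ) : ℂ) * I)).aestronglyMeasurable
  have hpt : ∀ p : ℝ × ℝ,
      (((‖∑ l ∈ Finset.range L, cexp ((((l : ℝ) * θ * (p.2 - c) : ℝ) : ℂ) * I)‖ ^ 2 : ℝ)) : ℂ)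
      = ∑ l ∈ Finset.range L, ∑ l' ∈ Finset.range L,
        cexp (((-(((l : ℝ) - l') * θ * c) : ℝ) : ℂ) * I) *
          cexp ((((((l : ℝ) - l') * θ) * p.2 : ℝ) : ℂ) * I) := by
    intro p
    rw [← Complex.normSq_eq_norm_sq, ← Complex.mul_conj, map_sum, Finset.sum_mul_sum]
    refine Finset.sum_congr rfl fun l _ => Finset.sum_congr rfl fun l' _ => ?_
    rw [← Complex.exp_conj, ← Complex.exp_add, ← Complex.exp_add]
    congr 1
    simp only [map_mul, Complex.conj_ofReal, Complex.conj_I]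
    push_cast
    ring
  have h1 : (((∫ p, ‖∑ l ∈ Finset.range L,
        cexp ((((l : ℝ) * θ * (p.2 - c) : ℝ) : ℂ) * I)‖ ^ 2 ∂μ : ℝ)) : ℂ)
      = ∑ l ∈ Finset.range L, ∑ l' ∈ Finset.range L,
        cexp (((-(((l : ℝ) - l') * θ * c) : ℝ) : ℂ) * I) *
          ∫ p, cexp ((((((l : ℝ) - l') * θ) * p.2 : ℝ) : ℂ) * I) ∂μ := by
    rw [← integral_complex_ofReal]
    simp_rw [hpt]
    rw [integral_finsetSum _ fun l _ => integrable_finsetSum _ fun l' _ => (hint _).const_mul _]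
    refine Finset.sum_congr rfl fun l _ => ?_
    rw [integral_finsetSum _ fun l' _ => (hint _).const_mul _]
    refine Finset.sum_congr rfl fun l' _ => ?_
    rw [integral_const_mul]
  have h2 : ∀ l l' : ℕ, ‖cexp (((-(((l : ℝ) - l') * θ * c) : ℝ) : ℂ) * I) *
          ∫ p, cexp ((((((l : ℝ) - l') * θ) * p.2 : ℝ) : ℂ) * I) ∂μ‖
      ≤ (if l = l' then 1 else 0) + D := by
    intro l l'
    rw [norm_mul, Complex.norm_exp_ofReal_mul_I, one_mul]
    split_ifs with h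
    · subst h
      simp [hD]
    · have := hdec ((l : ℤ) - l') (sub_ne_zero.2 (by exact_mod_cast h))
      push_cast at this ⊢
      simpa using this
  calc ∫ p, ‖∑ l ∈ Finset.range L, cexp ((((l : ℝ) * θ * (p.2 - c) : ℝ) : ℂ) * I)‖ ^ 2 ∂μ
      ≤ ‖(((∫ p, ‖∑ l ∈ Finset.range L,
        cexp ((((l : ℝ) * θ * (p.2 - c) : ℝ) : ℂ) * I)‖ ^ 2 ∂μ : ℝ)) : ℂ)‖ := by
        rw [Complex.norm_real]; exact le_abs_self _
    _ ≤ ∑ l ∈ Finset.range L, ∑ l' ∈ Finset.range L, ((if l = l' then (1 : ℝ) else 0) + D) := by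
        rw [h1]
        refine (norm_sum_le _ _).trans (Finset.sum_le_sum fun l _ => ?_)
        exact (norm_sum_le _ _).trans (Finset.sum_le_sum fun l' _ => h2 l l')
    _ = L + (L : ℝ) ^ 2 * D := by
        simp only [Finset.sum_add_distrib, Finset.sum_ite_eq, Finset.sum_const, Finset.card_range,
          nsmul_eq_mul]
        rw [Finset.sum_congr rfl (g := fun _ => (1 : ℝ)) fun l hl => by simp [hl]]
        simp
        ring

lemma fejer_lower (θ x : ℝ) (hθ : 0 ≤ θ) (L : ℕ) (hx : (L : ℝ) * θ * |x| ≤ 1) :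
    ((L : ℝ) / 2) ^ 2 ≤ ‖∑ l ∈ Finset.range L, cexp ((((l : ℝ) * θ * x : ℝ) : ℂ) * I)‖ ^ 2 := by
  have h : (L : ℝ) / 2 ≤ ‖∑ l ∈ Finset.range L, cexp ((((l : ℝ) * θ * x : ℝ) : ℂ) * I)‖ := by
    refine le_trans ?_ (Complex.re_le_norm _)
    rw [Complex.re_sum]
    calc (L : ℝ) / 2 = ∑ _l ∈ Finset.range L, (1 / 2 : ℝ) := by simp; ring
      _ ≤ _ := Finset.sum_le_sum fun l hl => ?_
    rw [Complex.exp_ofReal_mul_I_re]
    refine le_trans ?_ Real.one_sub_sq_div_two_le_cos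
    have hl' : (l : ℝ) ≤ L := by exact_mod_cast (Finset.mem_range.1 hl).le
    have h1 : |(l : ℝ) * θ * x| ≤ 1 := by
      rw [abs_mul, abs_of_nonneg (by positivity : (0 : ℝ) ≤ l * θ)]
      refine le_trans ?_ hx
      gcongr
    have h2 : ((l : ℝ) * θ * x) ^ 2 ≤ 1 := by
      rw [← sq_abs]
      exact pow_le_one₀ (abs_nonneg _) h1
    linarith
  exact pow_le_pow_left₀ (by positivity) h 2

/-- If the measure is carried by the strips of half width `δ` around the heights in `S`. -/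
lemma strips_bound (μ : Measure (ℝ × ℝ)) [IsProbabilityMeasure μ] (D θ δ : ℝ) (hD : 0 ≤ D)
    (hθ : 0 ≤ θ) (L : ℕ) (S : Finset ℝ) (hS : ∀ᵐ p ∂μ, ∃ c ∈ S, |p.2 - c| ≤ δ)
    (hL : (L : ℝ) * θ * δ ≤ 1)
    (hdec : ∀ k : ℤ, k ≠ 0 → ‖∫ p, cexp ((((k : ℝ) * θ * p.2 : ℝ) : ℂ) * I) ∂μ‖ ≤ D) :
    ((L : ℝ) / 2) ^ 2 ≤ S.card * (L + (L : ℝ) ^ 2 * D) := by
  have hint : ∀ c : ℝ, Integrable (fun p : ℝ × ℝ =>
      ‖∑ l ∈ Finset.range L, cexp ((((l : ℝ) * θ * (p.2 - c) : ℝ) : ℂ) * I)‖ ^ 2) μ := by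
    intro c
    refine Integrable.of_bound ?_ ((L : ℝ) ^ 2) (Eventually.of_forall fun p => ?_)
    · exact (by fun_prop : Continuous fun p : ℝ × ℝ =>
        ‖∑ l ∈ Finset.range L,
          cexp ((((l : ℝ) * θ * (p.2 - c) : ℝ) : ℂ) * I)‖ ^ 2).aestronglyMeasurable
    · rw [Real.norm_of_nonneg (by positivity)]
      refine pow_le_pow_left₀ (norm_nonneg _) ((norm_sum_le _ _).trans ?_) 2
      simp only [Complex.norm_exp_ofReal_mul_I]
      simp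
  calc ((L : ℝ) / 2) ^ 2 = ∫ _p, ((L : ℝ) / 2) ^ 2 ∂μ := by simp
    _ ≤ ∫ p, ∑ c ∈ S,
        ‖∑ l ∈ Finset.range L, cexp ((((l : ℝ) * θ * (p.2 - c) : ℝ) : ℂ) * I)‖ ^ 2 ∂μ := by
        refine integral_mono_ae (integrable_const _) (integrable_finsetSum _ fun c _ => hint c) ?_
        filter_upwards [hS] with p ⟨c, hc, hp⟩
        refine le_trans (fejer_lower θ (p.2 - c) hθ L (le_trans (by gcongr) hL)) ?_
        exact Finset.single_le_sum (f := fun c => ‖∑ l ∈ Finset.range L,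
          cexp ((((l : ℝ) * θ * (p.2 - c) : ℝ) : ℂ) * I)‖ ^ 2) (fun _ _ => by positivity) hc
    _ = ∑ c ∈ S, ∫ p,
        ‖∑ l ∈ Finset.range L, cexp ((((l : ℝ) * θ * (p.2 - c) : ℝ) : ℂ) * I)‖ ^ 2 ∂μ :=
        integral_finsetSum _ fun c _ => hint c
    _ ≤ ∑ _c ∈ S, (L + (L : ℝ) ^ 2 * D) :=
        Finset.sum_le_sum fun c _ => fejer_upper μ D θ c hD L hdec
    _ = _ := by rw [Finset.sum_const, nsmul_eq_mul]

end Pool.Agent.H394Z.Stable
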