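import Pool.Agent.H394Z.Stable.Process
import Pool.Agent.H394Z.Stable.Fourier

set_option autoImplicit false

/-! No measure on the graph of a pure jump path with rapidly decreasing jumps has Fourier decay
of order `1 / 4` in the vertical direction. -/

open MeasureTheory Filter Topology Complex

namespace Pool.Agent.H394Z.Stable

lemma no_decay {κ : Type} (z : κ → ℝ × ℝ) {a : ℝ} (ha : 0 ≤ a)
    (hw : ∀ T : ℕ, Summable fun n => wt T (z n)) (μ : Measure (ℝ × ℝ)) [IsProbabilityMeasure μ]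
    (hμ : ∀ᵐ p ∂μ, p.1 ∈ Set.Icc (0 : ℝ) 1 ∧ p.2 = ∑' n, jump a p.1 (z n)) (C : ℝ)
    (hC : ∀ ξ : ℝ × ℝ, 1 ≤ ‖ξ‖ →
      ‖∫ p, cexp (((ξ.1 * p.1 + ξ.2 * p.2 : ℝ) : ℂ) * I) ∂μ‖ ≤ C * ‖ξ‖ ^ (-(1 / 2 : ℝ) / 2)) :
    False := by
  set K : ℝ := ∑' n, wt 1 (z n) with hK
  have hK0 : 0 ≤ K := tsum_nonneg fun n => wt_nonneg _ _
  have hC0 : 0 ≤ C := by
    have := hC (0, 1) (by simp)
    simpa using (norm_nonneg _).trans this
  obtain ⟨R, hR⟩ := exists_nat_ge (1 + 2 * a * K + 8 * (1 + 2 * K) * (1 + C))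
  have haK : 0 ≤ 2 * a * K := by positivity
  have hB : 0 ≤ 8 * (1 + 2 * K) * (1 + C) := by positivity
  have hR1 : (1 : ℝ) ≤ R := by linarith
  have hR0 : (0 : ℝ) < R := by linarith
  obtain ⟨S, hS, hcov⟩ := cover z ha hw R hR1
  have hdec : ∀ k : ℤ, k ≠ 0 →
      ‖∫ p, cexp ((((k : ℝ) * (R : ℝ) ^ 12 * p.2 : ℝ) : ℂ) * I) ∂μ‖ ≤ C / (R : ℝ) ^ 3 := by
    intro k hk
    have hk1 : (1 : ℝ) ≤ |(k : ℝ)| := by exact_mod_cast Int.one_le_abs hk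
    have hn : ‖((0 : ℝ), (k : ℝ) * (R : ℝ) ^ 12)‖ = |(k : ℝ)| * (R : ℝ) ^ 12 := by
      rw [Prod.norm_def]
      simp only [norm_zero, norm_mul, Real.norm_eq_abs, abs_pow, abs_of_pos hR0]
      exact max_eq_right (by positivity)
    have hge : (R : ℝ) ^ 12 ≤ ‖((0 : ℝ), (k : ℝ) * (R : ℝ) ^ 12)‖ := by
      rw [hn]
      exact le_mul_of_one_le_left (by positivity) hk1
    have h1 := hC (0, (k : ℝ) * (R : ℝ) ^ 12) ((one_le_pow₀ hR1).trans hge)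
    simp only [zero_mul, zero_add] at h1
    refine h1.trans ?_
    rw [div_eq_mul_inv C]
    refine mul_le_mul_of_nonneg_left ?_ hC0
    refine (Real.rpow_le_rpow_of_nonpos (by positivity) hge (by norm_num)).trans (le_of_eq ?_)
    rw [← Real.rpow_natCast, ← Real.rpow_mul hR0.le, ← Real.rpow_natCast, ← Real.rpow_neg hR0.le]
    norm_num
  have hmain := strips_bound μ (C / (R : ℝ) ^ 3) ((R : ℝ) ^ 12) (2 * a / (R : ℝ) ^ 17 * K)
    (by positivity) (by positivity) (R ^ 3) S ?_ ?_ hdec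
  · push_cast at hmain
    have h1 : (S.card : ℝ) ≤ (1 + 2 * K) * (R : ℝ) ^ 2 := by
      have : (1 : ℝ) ≤ (R : ℝ) ^ 2 := one_le_pow₀ hR1
      nlinarith
    have h2 : (R : ℝ) ^ 3 + ((R : ℝ) ^ 3) ^ 2 * (C / (R : ℝ) ^ 3) = (1 + C) * (R : ℝ) ^ 3 := by
      field_simp
    rw [h2] at hmain
    have h3 : ((R : ℝ) ^ 3 / 2) ^ 2 ≤ (1 + 2 * K) * (R : ℝ) ^ 2 * ((1 + C) * (R : ℝ) ^ 3) :=
      hmain.trans (by gcongr)
    have h4 : (R : ℝ) ^ 5 * R ≤ (R : ℝ) ^ 5 * (4 * (1 + 2 * K) * (1 + C)) := by nlinarith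
    have h5 := le_of_mul_le_mul_left h4 (by positivity)
    nlinarith
  · filter_upwards [hμ] with p hp
    rw [hp.2]
    exact hcov p.1 hp.1
  · push_cast
    have : (R : ℝ) ^ 3 * (R : ℝ) ^ 12 * (2 * a / (R : ℝ) ^ 17 * K) = 2 * a * K / (R : ℝ) ^ 2 := by
      field_simp
    rw [this, div_le_one (by positivity)]
    nlinarith

end Pool.Agent.H394Z.Stable
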