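import Mathlib

set_option autoImplicit false

/-! Deterministic properties of pure jump paths. -/

open Filter Topology

namespace Pool.Agent.H394Z.Stable

/-- The jump contributed up to time `t` by the point `z`. -/
noncomputable def jump (a t : ℝ) (z : ℝ × ℝ) : ℝ :=
  if 0 < z.1 ∧ z.1 ≤ t then a / z.2 ^ 19 else 0

/-- The weight of a point. -/
noncomputable def wt (T : ℝ) (z : ℝ × ℝ) : ℝ :=
  if 0 < z.1 ∧ z.1 ≤ T then (1 + z.2 ^ 2)⁻¹ else 0

lemma wt_nonneg (T : ℝ) (z : ℝ × ℝ) : 0 ≤ wt T z := by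
  unfold wt
  split_ifs <;> positivity

lemma abs_jump_mono (a : ℝ) {t T : ℝ} (h : t ≤ T) (z : ℝ × ℝ) :
    |jump a t z| ≤ |jump a T z| := by
  unfold jump
  by_cases h1 : 0 < z.1 ∧ z.1 ≤ t
  · rw [if_pos h1, if_pos ⟨h1.1, h1.2.trans h⟩]
  · rw [if_neg h1, abs_zero]
    exact abs_nonneg _

lemma abs_jump_le {a : ℝ} (ha : 0 ≤ a) {R : ℝ} (hR : 1 ≤ R) (T : ℝ) (z : ℝ × ℝ)
    (hz : 0 < z.1 ∧ z.1 ≤ T → R ≤ |z.2|) : |jump a T z| ≤ 2 * a / R ^ 17 * wt T z := by
  unfold jump wt
  by_cases h1 : 0 < z.1 ∧ z.1 ≤ T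
  · rw [if_pos h1, if_pos h1]
    have h2 := hz h1
    have h3 : 1 ≤ |z.2| := hR.trans h2
    have h4 : 1 ≤ z.2 ^ 2 := by
      rw [← sq_abs]
      exact one_le_pow₀ h3
    rw [abs_div, abs_of_nonneg ha, abs_pow, ← div_eq_mul_inv, div_div,
      div_le_div_iff₀ (by positivity) (by positivity)]
    have h5 : R ^ 17 ≤ |z.2| ^ 17 := pow_le_pow_left₀ (by linarith) h2 17
    have h6 : |z.2| ^ 19 = |z.2| ^ 17 * z.2 ^ 2 := by rw [← sq_abs z.2]; ring
    rw [h6]
    calc a * (R ^ 17 * (1 + z.2 ^ 2)) ≤ a * (|z.2| ^ 17 * (z.2 ^ 2 + z.2 ^ 2)) := by gcongr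
      _ = _ := by ring
  · rw [if_neg h1, if_neg h1]
    simp

variable {κ : Type} (z : κ → ℝ × ℝ)

lemma finite_big {T : ℝ} (hw : Summable fun n => wt T (z n)) (R : ℝ) (hR : 0 ≤ R) :
    {n | (0 < (z n).1 ∧ (z n).1 ≤ T) ∧ |(z n).2| ≤ R}.Finite := by
  have h := hw.tendsto_cofinite_zero
  have h1 : ∀ᶠ n in cofinite, wt T (z n) < (1 + R ^ 2)⁻¹ :=
    h.eventually (gt_mem_nhds (by positivity))
  refine (eventually_cofinite.1 h1).subset fun n hn => ?_
  simp only [Set.mem_setOf_eq, not_lt] at hn ⊢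
  unfold wt
  rw [if_pos hn.1]
  have : (z n).2 ^ 2 ≤ R ^ 2 := by
    rw [← sq_abs]
    exact pow_le_pow_left₀ (abs_nonneg _) hn.2 2
  gcongr

lemma summable_abs_jump {a : ℝ} (ha : 0 ≤ a) {T : ℝ} (hw : Summable fun n => wt T (z n)) :
    Summable fun n => |jump a T (z n)| := by
  refine Summable.of_norm_bounded_eventually (hw.mul_left (2 * a / 1 ^ 17)) ?_
  filter_upwards [(finite_big z hw 1 zero_le_one).compl_mem_cofinite] with n hn
  rw [Real.norm_eq_abs, abs_abs]
  refine abs_jump_le ha le_rfl T _ fun h => ?_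
  by_contra hc
  exact hn ⟨h, (not_le.1 hc).le⟩

lemma summable_abs_jump' {a : ℝ} (ha : 0 ≤ a) (hw : ∀ T : ℕ, Summable fun n => wt T (z n))
    (t : ℝ) : Summable fun n => |jump a t (z n)| := by
  obtain ⟨T, hT⟩ := exists_nat_ge t
  exact Summable.of_nonneg_of_le (fun _ => abs_nonneg _) (fun n => abs_jump_mono a hT _)
    (summable_abs_jump z ha (hw T))

lemma summable_jump {a : ℝ} (ha : 0 ≤ a) (hw : ∀ T : ℕ, Summable fun n => wt T (z n))
    (t : ℝ) : Summable fun n => jump a t (z n) :=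
  (summable_abs_jump' z ha hw t).of_abs

lemma right_cont {a : ℝ} (ha : 0 ≤ a) (hw : ∀ T : ℕ, Summable fun n => wt T (z n)) (t : ℝ) :
    ContinuousWithinAt (fun s => ∑' n, jump a s (z n)) (Set.Ici t) t := by
  refine tendsto_tsum_of_dominated_convergence (summable_abs_jump' z ha hw (t + 1)) ?_ ?_
  · intro n
    refine tendsto_const_nhds.congr' ?_
    by_cases h : (z n).1 ≤ t
    · filter_upwards [self_mem_nhdsWithin] with s hs
      have : (z n).1 ≤ s := h.trans hs
      simp [jump, h, this]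
    · filter_upwards [mem_nhdsWithin_of_mem_nhds (Iio_mem_nhds (not_le.1 h))] with s hs
      have : ¬ (z n).1 ≤ s := not_le.2 hs
      simp [jump, h, this]
  · filter_upwards [mem_nhdsWithin_of_mem_nhds (Iio_mem_nhds (lt_add_one t))] with s hs n
    exact abs_jump_mono a (le_of_lt hs) _

lemma left_lim {a : ℝ} (ha : 0 ≤ a) (hw : ∀ T : ℕ, Summable fun n => wt T (z n)) (t : ℝ) :
    ∃ l : ℝ, Tendsto (fun s => ∑' n, jump a s (z n)) (𝓝[<] t) (𝓝 l) := by
  refine ⟨∑' n, if 0 < (z n).1 ∧ (z n).1 < t then a / (z n).2 ^ 19 else 0, ?_⟩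
  refine tendsto_tsum_of_dominated_convergence (summable_abs_jump' z ha hw t) ?_ ?_
  · intro n
    refine tendsto_const_nhds.congr' ?_
    by_cases h : (z n).1 < t
    · filter_upwards [mem_nhdsWithin_of_mem_nhds (Ioi_mem_nhds h)] with s hs
      have : (z n).1 ≤ s := le_of_lt hs
      simp [jump, h, this]
    · filter_upwards [self_mem_nhdsWithin] with s hs
      have : ¬ (z n).1 ≤ s := not_le.2 (lt_of_lt_of_le hs (not_lt.1 h))
      simp [jump, h, this]
  · filter_upwards [self_mem_nhdsWithin] with s hs n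
    exact abs_jump_mono a (le_of_lt hs) _

/-- The range over the unit time interval is covered by few short intervals. -/
lemma cover {a : ℝ} (ha : 0 ≤ a) (hw : ∀ T : ℕ, Summable fun n => wt T (z n)) (R : ℝ)
    (hR : 1 ≤ R) : ∃ S : Finset ℝ, (S.card : ℝ) ≤ 1 + (∑' n, wt 1 (z n)) * (1 + R ^ 2) ∧
      ∀ t ∈ Set.Icc (0 : ℝ) 1, ∃ c ∈ S,
        |∑' n, jump a t (z n) - c| ≤ 2 * a / R ^ 17 * ∑' n, wt 1 (z n) := by
  classical
  have hw1 : Summable fun n => wt 1 (z n) := by simpa using hw 1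
  have hfin := finite_big z hw1 R (by linarith)
  set A := hfin.toFinset with hA
  have hmem : ∀ n, n ∈ A ↔ (0 < (z n).1 ∧ (z n).1 ≤ 1) ∧ |(z n).2| ≤ R := fun n => by
    simp [hA]
  let B : ℝ → ℝ := fun t => ∑ n ∈ A, jump a t (z n)
  refine ⟨insert 0 (A.image fun n => B (z n).1), ?_, ?_⟩
  · have h1 : (insert 0 (A.image fun n => B (z n).1)).card ≤ A.card + 1 :=
      (Finset.card_insert_le _ _).trans (Nat.add_le_add_right Finset.card_image_le 1)
    have h2 : (A.card : ℝ) * (1 + R ^ 2)⁻¹ ≤ ∑' n, wt 1 (z n) := by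
      refine le_trans ?_ (hw1.sum_le_tsum A fun n _ => wt_nonneg _ _)
      rw [← nsmul_eq_mul, ← Finset.sum_const]
      refine Finset.sum_le_sum fun n hn => ?_
      have hn' := (hmem n).1 hn
      unfold wt
      rw [if_pos hn'.1]
      have : (z n).2 ^ 2 ≤ R ^ 2 := by
        rw [← sq_abs]
        exact pow_le_pow_left₀ (abs_nonneg _) hn'.2 2
      gcongr
    rw [← div_eq_mul_inv, div_le_iff₀ (by positivity)] at h2
    have h3 : ((insert 0 (A.image fun n => B (z n).1)).card : ℝ) ≤ A.card + 1 := by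
      exact_mod_cast h1
    linarith
  · intro t ht
    refine ⟨B t, ?_, ?_⟩
    · by_cases hne : (A.filter fun n => (z n).1 ≤ t).Nonempty
      · obtain ⟨m, hm, hmax⟩ := Finset.exists_max_image _ (fun n => (z n).1) hne
        rw [Finset.mem_filter] at hm
        refine Finset.mem_insert_of_mem (Finset.mem_image.2 ⟨m, hm.1, ?_⟩)
        refine Finset.sum_congr rfl fun n hn => ?_
        unfold jump
        by_cases h : (z n).1 ≤ t
        · have := hmax n (Finset.mem_filter.2 ⟨hn, h⟩)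
          simp [h, this]
        · have : ¬ (z n).1 ≤ (z m).1 := fun h' => h (h'.trans hm.2)
          simp [h, this]
      · have : B t = 0 := by
          refine Finset.sum_eq_zero fun n hn => ?_
          have : ¬ (z n).1 ≤ t := fun h => hne ⟨n, Finset.mem_filter.2 ⟨hn, h⟩⟩
          simp [jump, this]
        rw [this]
        exact Finset.mem_insert_self _ _
    · have h1 : HasSum (fun n => if n ∈ A then jump a t (z n) else 0) (B t) := by
        have : B t = ∑ n ∈ A, if n ∈ A then jump a t (z n) else 0 :=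
          Finset.sum_congr rfl fun n hn => by rw [if_pos hn]
        rw [this]
        exact hasSum_sum_of_ne_finset_zero fun n hn => by rw [if_neg hn]
      have h2 := (summable_jump z ha hw t).hasSum.sub h1
      rw [← h2.tsum_eq, ← Real.norm_eq_abs]
      refine tsum_of_norm_bounded (hw1.hasSum.mul_left (2 * a / R ^ 17)) fun n => ?_
      by_cases hn : n ∈ A
      · rw [if_pos hn, sub_self, norm_zero]
        have := wt_nonneg 1 (z n)
        positivity
      · rw [if_neg hn, sub_zero, Real.norm_eq_abs]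
        refine (abs_jump_mono a ht.2 _).trans (abs_jump_le ha hR 1 _ fun h => ?_)
        by_contra hc
        exact hn ((hmem n).2 ⟨h, (not_le.1 hc).le⟩)

end Pool.Agent.H394Z.Stable
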