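import Pool.Agent.H394Z.Stable.Poisson
import Pool.Agent.H394Z.Stable.Exponent
import Pool.Agent.H394Z.Stable.Path

set_option autoImplicit false

/-! A symmetric stable process of index `1 / 19`, built from a Poisson point process. -/

open MeasureTheory ProbabilityTheory Filter Topology Complex
open scoped ENNReal NNReal

namespace Pool.Agent.H394Z.Stable

/-- The unit cells of the plane. -/
def cell (i : ℤ × ℤ) : Set (ℝ × ℝ) :=
  Set.Ioc (i.1 : ℝ) (i.1 + 1) ×ˢ Set.Ioc (i.2 : ℝ) (i.2 + 1)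

lemma measurableSet_cell (i : ℤ × ℤ) : MeasurableSet (cell i) :=
  measurableSet_Ioc.prod measurableSet_Ioc

/-- Lebesgue measure on one cell. -/
noncomputable def cellVol (i : ℤ × ℤ) : Measure (ℝ × ℝ) := volume.restrict (cell i)

instance (i : ℤ × ℤ) : IsProbabilityMeasure (cellVol i) := by
  constructor
  rw [cellVol, Measure.restrict_apply MeasurableSet.univ, Set.univ_inter, cell,
    Measure.volume_eq_prod, Measure.prod_prod]
  simp

lemma mem_cell_iff (i : ℤ × ℤ) (z : ℝ × ℝ) : z ∈ cell i ↔ i = (⌈z.1⌉ - 1, ⌈z.2⌉ - 1) := by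
  have h : ∀ (k : ℤ) (x : ℝ), x ∈ Set.Ioc (k : ℝ) (k + 1) ↔ k = ⌈x⌉ - 1 := by
    intro k x
    rw [eq_sub_iff_add_eq, eq_comm, Int.ceil_eq_iff]
    simp [Set.mem_Ioc]
  rw [cell, Set.mem_prod, h, h, Prod.ext_iff]

lemma sum_cellVol : Measure.sum cellVol = volume := by
  have h1 : (⋃ i, cell i) = Set.univ := by
    refine Set.eq_univ_of_forall fun z => Set.mem_iUnion.2 ⟨_, (mem_cell_iff _ z).2 rfl⟩
  have h2 : Pairwise (Function.onFun Disjoint cell) := by
    intro i j hij
    refine Set.disjoint_left.2 fun z hi hj => hij ?_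
    rw [(mem_cell_iff i z).1 hi, (mem_cell_iff j z).1 hj]
  have := Measure.restrict_iUnion (μ := (volume : Measure (ℝ × ℝ))) h2 measurableSet_cell
  rw [h1, Measure.restrict_univ] at this
  exact this.symm

/-- The sample space. -/
abbrev Om : Type := ℤ × ℤ → ℕ × (ℕ → ℝ × ℝ)

/-- The points of the sample, with unused slots sent to the origin. -/
noncomputable def pt (ω : Om) (n : (ℤ × ℤ) × ℕ) : ℝ × ℝ :=
  if n.2 < (ω n.1).1 then (ω n.1).2 n.2 else (0, 0)

lemma measurable_pt (n : (ℤ × ℤ) × ℕ) : Measurable fun ω : Om => pt ω n := by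
  unfold pt
  refine Measurable.ite ?_ ?_ measurable_const
  · exact measurableSet_lt measurable_const (measurable_fst.comp (measurable_pi_apply n.1))
  · exact (measurable_pi_apply n.2).comp (measurable_snd.comp (measurable_pi_apply n.1))

lemma measurable_jump (a t : ℝ) : Measurable (jump a t) := by
  unfold jump
  refine Measurable.ite ?_ (by fun_prop) measurable_const
  exact (measurableSet_lt measurable_const measurable_fst).inter
    (measurableSet_le measurable_fst measurable_const)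

lemma measurable_wt (t : ℝ) : Measurable (wt t) := by
  unfold wt
  refine Measurable.ite ?_ (by fun_prop) measurable_const
  exact (measurableSet_lt measurable_const measurable_fst).inter
    (measurableSet_le measurable_fst measurable_const)

/-- The process. -/
noncomputable def X (t : ℝ) (ω : Om) : ℝ := ∑' n, jump amp t (pt ω n)

lemma measurable_X (t : ℝ) : Measurable (X t) :=
  Measurable.tsum fun n => (measurable_jump amp t).comp (measurable_pt n)

lemma X_zero (ω : Om) : X 0 ω = 0 := by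
  have : ∀ z : ℝ × ℝ, jump amp 0 z = 0 := fun z => by
    unfold jump
    rw [if_neg fun h => absurd (h.1.trans_le h.2) (lt_irrefl _)]
  simp [X, this]

lemma tsum_pt_inner {M : Type} [AddCommMonoid M] [TopologicalSpace M] {F : ℝ × ℝ → M}
    (h0 : F (0, 0) = 0) (ω : Om) (i : ℤ × ℤ) : ∑' j, F (pt ω (i, j)) = Y F (ω i) := by
  rw [tsum_eq_sum (s := Finset.range (ω i).1)]
  · refine Finset.sum_congr rfl fun j hj => ?_
    rw [pt, if_pos (Finset.mem_range.1 hj)]
  · intro j hj
    rw [pt, if_neg (fun h => hj (Finset.mem_range.2 h)), h0]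

lemma integrable_wt (T : ℝ) : Integrable (wt T) (volume : Measure (ℝ × ℝ)) := by
  have h1 : Integrable ((Set.Ioc (0 : ℝ) T).indicator fun _ => (1 : ℝ)) :=
    (integrable_indicator_iff measurableSet_Ioc).2 (integrableOn_const (by simp))
  have h2 := h1.mul_prod integrable_inv_one_add_sq
  rw [Measure.volume_eq_prod]
  refine h2.congr (Eventually.of_forall fun z => ?_)
  simp only [wt, Set.indicator, Set.mem_Ioc]
  split_ifs <;> simp

lemma ae_good : ∀ᵐ ω ∂(ppLaw cellVol), ∀ T : ℕ, Summable fun n => wt T (pt ω n) := by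
  rw [ae_all_iff]
  intro T
  have h1 : ∫⁻ z, ENNReal.ofReal (wt T z) ∂(Measure.sum cellVol) ≠ ∞ := by
    rw [sum_cellVol]
    exact (integrable_wt T).lintegral_lt_top.ne
  filter_upwards [ae_tsum_Y_ne_top cellVol (measurable_wt T).ennreal_ofReal h1] with ω hω
  have h2 : ∑' n, ENNReal.ofReal (wt T (pt ω n)) ≠ ∞ := by
    rw [ENNReal.tsum_prod']
    have : ∀ i, ∑' j, ENNReal.ofReal (wt T (pt ω (i, j)))
        = Y (fun z => ENNReal.ofReal (wt T z)) (ω i) :=
      fun i => tsum_pt_inner (F := fun z => ENNReal.ofReal (wt T z)) (by simp [wt]) ω i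
    simp_rw [this]
    exact hω
  refine (ENNReal.summable_toReal h2).congr fun n => ?_
  rw [ENNReal.toReal_ofReal (wt_nonneg _ _)]

/-- The joint characteristic function of increments over disjoint intervals. -/
lemma joint_char {ι : Type} [Fintype ι] (s e ξ : ι → ℝ) (hs : ∀ l, 0 ≤ s l) (hse : ∀ l, s l ≤ e l)
    (hd : Pairwise fun l l' => Disjoint (Set.Ioc (s l) (e l)) (Set.Ioc (s l') (e l'))) :
    ∫ ω, cexp (((∑ l, ξ l * (X (e l) ω - X (s l) ω) : ℝ) : ℂ) * I) ∂(ppLaw cellVol)
      = ∏ l, ((Real.exp (-(e l - s l) * |ξ l| ^ (((19 : ℕ) : ℝ)⁻¹)) : ℝ) : ℂ) := by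
  classical
  set F : ℝ × ℝ → ℝ := fun z => ∑ l, ξ l * (jump amp (e l) z - jump amp (s l) z) with hF
  have hFm : Measurable F := Finset.measurable_sum _ fun l _ =>
    ((measurable_jump _ _).sub (measurable_jump _ _)).const_mul _
  have hF0 : F (0, 0) = 0 := by simp [hF, jump]
  have hdiff : ∀ l (z : ℝ × ℝ), jump amp (e l) z - jump amp (s l) z
      = if z.1 ∈ Set.Ioc (s l) (e l) then amp / z.2 ^ 19 else 0 := by
    intro l z
    unfold jump
    have h1 := hs l
    have h2 := hse l
    by_cases h : z.1 ∈ Set.Ioc (s l) (e l)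
    · rw [if_pos h, if_pos ⟨h1.trans_lt h.1, h.2⟩, if_neg fun h' => absurd h'.2 (not_le.2 h.1),
        sub_zero]
    · rw [if_neg h]
      by_cases h' : 0 < z.1 ∧ z.1 ≤ s l
      · rw [if_pos h', if_pos ⟨h'.1, h'.2.trans h2⟩, sub_self]
      · rw [if_neg h', if_neg, sub_zero]
        intro h''
        exact h ⟨not_le.1 fun h3 => h' ⟨h''.1, h3⟩, h''.2⟩
  have hpt : ∀ z : ℝ × ℝ, cexp ((F z : ℂ) * I) - 1 = ∑ l,
      (Set.Ioc (s l) (e l)).indicator (fun _ => (1 : ℂ)) z.1 *
        (cexp (((ξ l * amp / z.2 ^ 19 : ℝ) : ℂ) * I) - 1) := by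
    intro z
    by_cases h : ∃ l, z.1 ∈ Set.Ioc (s l) (e l)
    · obtain ⟨l, hl⟩ := h
      have hne : ∀ l', l' ≠ l → z.1 ∉ Set.Ioc (s l') (e l') := fun l' hl' h' =>
        Set.disjoint_left.1 (hd hl') h' hl
      have h1 : F z = ξ l * amp / z.2 ^ 19 := by
        simp only [hF, hdiff]
        rw [Finset.sum_eq_single l (fun l' _ hl' => by rw [if_neg (hne l' hl'), mul_zero])
          (by simp), if_pos hl, mul_div_assoc]
      rw [Finset.sum_eq_single l
        (fun l' _ hl' => by rw [Set.indicator_of_notMem (hne l' hl'), zero_mul]) (by simp),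
        Set.indicator_of_mem hl, one_mul, h1]
    · push Not at h
      have h1 : F z = 0 := by
        simp only [hF, hdiff]
        exact Finset.sum_eq_zero fun l _ => by rw [if_neg (h l), mul_zero]
      rw [h1, Finset.sum_eq_zero fun l _ => by rw [Set.indicator_of_notMem (h l), zero_mul]]
      simp
  have hind : ∀ l, Integrable ((Set.Ioc (s l) (e l)).indicator fun _ => (1 : ℂ)) :=
    fun l => (integrable_indicator_iff measurableSet_Ioc).2 (integrableOn_const (by simp))
  have hterm : ∀ l, Integrable (fun z : ℝ × ℝ =>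
      (Set.Ioc (s l) (e l)).indicator (fun _ => (1 : ℂ)) z.1 *
        (cexp (((ξ l * amp / z.2 ^ 19 : ℝ) : ℂ) * I) - 1)) (volume.prod volume) :=
    fun l => (hind l).mul_prod (integrable_exp_div (ξ l * amp))
  have hint : Integrable (fun z => cexp ((F z : ℂ) * I) - 1) (Measure.sum cellVol) := by
    rw [sum_cellVol, Measure.volume_eq_prod]
    simp_rw [hpt]
    exact integrable_finsetSum _ fun l _ => hterm l
  have hsum : ∀ᵐ ω ∂(ppLaw cellVol), HasSum (fun n => F (pt ω n))
      (∑ l, ξ l * (X (e l) ω - X (s l) ω)) := by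
    filter_upwards [ae_good] with ω hω
    exact hasSum_sum fun l _ => ((summable_jump _ amp_pos.le hω _).hasSum.sub
      (summable_jump _ amp_pos.le hω _).hasSum).mul_left _
  have hY : ∀ᵐ ω ∂(ppLaw cellVol), Summable fun i => Y F (ω i) := by
    filter_upwards [hsum] with ω hω
    refine hω.summable.prod.congr fun i => tsum_pt_inner hF0 ω i
  have h1 := integral_exp_tsum_Y cellVol hFm hint hY
  have h2 : ∫ ω, cexp (((∑ l, ξ l * (X (e l) ω - X (s l) ω) : ℝ) : ℂ) * I) ∂(ppLaw cellVol)
      = ∫ ω, cexp (((∑' i, Y F (ω i) : ℝ) : ℂ) * I) ∂(ppLaw cellVol) := by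
    refine integral_congr_ae ?_
    filter_upwards [hsum] with ω hω
    rw [← hω.tsum_eq, hω.summable.tsum_prod]
    simp_rw [tsum_pt_inner hF0 ω]
  rw [h2, h1, sum_cellVol, Measure.volume_eq_prod]
  simp_rw [hpt]
  rw [integral_finsetSum _ fun l _ => hterm l, Complex.exp_sum]
  refine Finset.prod_congr rfl fun l _ => ?_
  rw [integral_prod_mul (f := (Set.Ioc (s l) (e l)).indicator (fun _ => (1 : ℂ)))
    (g := fun r : ℝ => cexp (((ξ l * amp / r ^ 19 : ℝ) : ℂ) * I) - 1)]
  have h3 := psi_mul_amp (ξ l)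
  unfold psi at h3
  rw [h3, integral_indicator measurableSet_Ioc, Complex.ofReal_exp]
  congr 1
  simp only [integral_const, MeasurableSet.univ, measureReal_restrict_apply, Set.univ_inter,
    Real.volume_real_Ioc_of_le (hse l), Complex.real_smul]
  push_cast
  ring

lemma char_incr (s t : ℝ) (hs : 0 ≤ s) (hst : s ≤ t) (ξ : ℝ) :
    ∫ ω, cexp (((ξ * (X t ω - X s ω) : ℝ) : ℂ) * I) ∂(ppLaw cellVol)
      = ((Real.exp (-(t - s) * |ξ| ^ (((19 : ℕ) : ℝ)⁻¹)) : ℝ) : ℂ) := by
  have := joint_char (ι := Unit) (fun _ => s) (fun _ => t) (fun _ => ξ) (fun _ => hs)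
    (fun _ => hst) (fun l l' h => absurd (Subsingleton.elim l l') h)
  simpa using this

lemma indep_incr (n : ℕ) (t : Fin (n + 1) → ℝ) (h0 : 0 ≤ t 0) (ht : StrictMono t) :
    iIndepFun (fun (i : Fin n) (ω : Om) => X (t i.succ) ω - X (t i.castSucc) ω)
      (ppLaw cellVol) := by
  have hm : ∀ i : Fin n, Measurable fun ω : Om => X (t i.succ) ω - X (t i.castSucc) ω :=
    fun i => (measurable_X _).sub (measurable_X _)
  have hs : ∀ i : Fin n, 0 ≤ t i.castSucc := fun i => h0.trans (ht.monotone (Fin.zero_le _))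
  have hse : ∀ i : Fin n, t i.castSucc ≤ t i.succ :=
    fun i => ht.monotone (Fin.castSucc_lt_succ).le
  rw [iIndepFun_iff_charFun_pi fun i => (hm i).aemeasurable]
  intro ξ
  have hd : Pairwise fun l l' : Fin n => Disjoint (Set.Ioc (t l.castSucc) (t l.succ))
      (Set.Ioc (t l'.castSucc) (t l'.succ)) := by
    have key : ∀ l l' : Fin n, l < l' → Disjoint (Set.Ioc (t l.castSucc) (t l.succ))
        (Set.Ioc (t l'.castSucc) (t l'.succ)) := by
      intro l l' h
      refine Set.disjoint_left.2 fun x hx hx' => ?_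
      have : t l.succ ≤ t l'.castSucc := ht.monotone (Fin.succ_le_castSucc_iff.2 h)
      linarith [hx.2, hx'.1]
    intro l l' h
    rcases lt_or_gt_of_ne h with h | h
    · exact key l l' h
    · exact (key l' l h).symm
  have h1 := joint_char (fun l : Fin n => t l.castSucc) (fun l => t l.succ) (fun l => ξ l) hs hse hd
  have hmm : Measurable fun ω : Om =>
      WithLp.toLp 2 (fun i : Fin n => X (t i.succ) ω - X (t i.castSucc) ω) := by
    fun_prop
  rw [charFun_apply, integral_map hmm.aemeasurable (by fun_prop)]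
  have h2 : ∀ i : Fin n, charFun ((ppLaw cellVol).map fun ω : Om =>
      X (t i.succ) ω - X (t i.castSucc) ω) (ξ i)
      = ((Real.exp (-(t i.succ - t i.castSucc) * |ξ i| ^ (((19 : ℕ) : ℝ)⁻¹)) : ℝ) : ℂ) := by
    intro i
    rw [charFun_apply_real, integral_map (hm i).aemeasurable (by fun_prop),
      ← char_incr _ _ (hs i) (hse i)]
    simp
  simp_rw [h2]
  rw [← h1]
  refine integral_congr_ae (Eventually.of_forall fun ω => ?_)
  simp [PiLp.inner_apply]

end Pool.Agent.H394Z.Stable
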